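import Pool.Agent.T6.H63.LD.Perfect

/-!
Unique games on a known constraint graph, seen through linear queries.

The constraints are `y (d e) = x (s e) + c e` over `ZMod q`.  The algorithm knows the graph and asks
for the values of arbitrary `ZMod q`-linear forms of the shift vector `c`; it is adaptive and
randomised, and it may compute anything between the queries.

With completeness one a single random query (a random flow) suffices.  With completeness `1 - ε`
the number of queries is at least `n ^ (Ω(ε / log (1/δ)))`.

Proof of the lower bound (`Pool/Agent/T6/H63/LD`).  Compare uniform shifts with planted shifts, in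
which a random set of the edges is noisy.  For a fixed set of noisy edges the planted shifts are
uniform on the image of a linear map, so a leaf of the tree has the same probability in both cases
unless some nonzero combination of its queries is orthogonal to this image, that is, a flow
supported on clean edges.  For `T` given queries this is unlikely: a flow with large support is not
clean (union over the `q ^ T` combinations), and the flows with small support have all their
supports in one small set of edges, while the support of each contains a path of length `r`, which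
is determined by its ends because the girth is larger than `2 r`.
-/

namespace Pool.Agent.Results.MP_325f1f_lc.LinearQueries

open Finset

/-- A deterministic adaptive algorithm. `ask l` is the vector of coefficients of the next query when
the previous answers are `l` (latest first), and `acc l` says whether the algorithm accepts. -/
structure LinTree (q : ℕ) (E : Type) where
  ask : List (ZMod q) → E → ZMod q
  acc : List (ZMod q) → Prop

/-- The answers to the first `i` queries on the shifts `c`, latest first. -/
def LinTree.answers {q : ℕ} {E : Type} [Fintype E] (t : LinTree q E) (c : E → ZMod q) :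
    ℕ → List (ZMod q)
  | 0 => []
  | i + 1 => (∑ e, t.ask (t.answers c i) e * c e) :: t.answers c i

/-- A randomised algorithm: a probability distribution on finitely many deterministic ones. -/
structure RandTree (q : ℕ) (E : Type) where
  Ω : Type
  fin : Fintype Ω
  prob : Ω → ℝ
  nonneg : ∀ o, 0 ≤ prob o
  sum_one : ∑ o, prob o = 1
  tree : Ω → LinTree q E

open Classical in
/-- The probability that the algorithm accepts the shifts `c` after `T` queries. -/
noncomputable def RandTree.accept {q : ℕ} {E : Type} [Fintype E] (R : RandTree q E) (T : ℕ)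
    (c : E → ZMod q) : ℝ :=
  letI := R.fin
  ∑ o, R.prob o * if (R.tree o).acc ((R.tree o).answers c T) then 1 else 0

open Classical in
/-- The number of edges satisfied by the labeling `x`, `y` when the shifts are `c`. -/
noncomputable def sat {q : ℕ} {U V E : Type} [Fintype E] (s : E → U) (d : E → V) (c : E → ZMod q)
    (x : U → ZMod q) (y : V → ZMod q) : ℕ :=
  (univ.filter fun e => y (d e) = x (s e) + c e).card

/-- The algorithm distinguishes, with error at most `1/3`, the shifts for which some labeling
satisfies at least a fraction `1 - ε` of the edges from those for which no labeling satisfies more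
than a fraction `δ`. -/
def Decides {q : ℕ} {U V E : Type} [Fintype E] (R : RandTree q E) (T : ℕ) (s : E → U) (d : E → V)
    (ε δ : ℝ) : Prop :=
  (∀ c, (∃ x y, (1 - ε) * Fintype.card E ≤ (sat s d c x y : ℝ)) → 2 / 3 ≤ R.accept T c) ∧
    ∀ c, (∀ x y, (sat s d c x y : ℝ) ≤ δ * Fintype.card E) → R.accept T c ≤ 1 / 3

/-- The constraint graph: the bipartite graph in which `s e` and `d e` are adjacent. -/
def constraintGraph {U V E : Type} (s : E → U) (d : E → V) : SimpleGraph (U ⊕ V) :=
  SimpleGraph.fromRel fun a b => ∃ e, a = Sum.inl (s e) ∧ b = Sum.inr (d e)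

theorem answers_eq {q : ℕ} {E : Type} [Fintype E] (t : LinTree q E) (c : E → ZMod q) (T : ℕ) :
    t.answers c T = Pool.Agent.T6.H63.LD.run t.ask c T := by
  induction T with
  | zero => rfl
  | succ T ih => rw [LinTree.answers, Pool.Agent.T6.H63.LD.run, ih]

theorem graph_eq {U V E : Type} (s : E → U) (d : E → V) :
    constraintGraph s d = Pool.Agent.T6.H63.LD.gr s d Set.univ := by
  ext a b
  rw [constraintGraph, SimpleGraph.fromRel_adj]
  constructor
  · rintro ⟨-, ⟨e, h1, h2⟩ | ⟨e, h1, h2⟩⟩
    · exact ⟨e, Set.mem_univ _, Or.inl ⟨h1, h2⟩⟩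
    · exact ⟨e, Set.mem_univ _, Or.inr ⟨h2, h1⟩⟩
  · rintro ⟨e, -, ⟨h1, h2⟩ | ⟨h1, h2⟩⟩
    · refine ⟨?_, Or.inl ⟨e, h1, h2⟩⟩
      rw [h1, h2]
      simp
    · refine ⟨?_, Or.inr ⟨e, h2, h1⟩⟩
      rw [h1, h2]
      simp

/-- Linear queries to the shifts of a unique game on a known constraint graph.

1. Completeness one: on every graph and for every prime `q` one random query separates the
satisfiable instances (accepted with probability `1`) from all the others (accepted with probability
`1 / q`).

2. Let `0 < δ ≤ 1/4`, `0 < ε ≤ 1`, let `q ≥ δ ^ (-3)` be a prime, and let the constraint graph be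
without parallel edges, of girth larger than `2 r` and with `δ |E| ≥ 3 (|U| + |V| + 1)`. Every
randomised adaptive algorithm which distinguishes value at least `1 - ε` from value at most `δ`
by `T` linear queries satisfies `exp (ε r / 18) ≤ (54 / ε) (log q + 5) T ^ 2`.

3. Consequently, for all `0 < δ ≤ 1/4`, `0 < ε ≤ 1` and `N ≥ δ ^ (-7)` there is a constraint graph
on `N + N` vertices with at most `15 N / δ` edges such that for every prime `q ≥ δ ^ (-3)` every
such algorithm satisfies `N ^ (ε / (108 log (1/δ))) ≤ 130 (log q / ε) T ^ 2`. -/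
theorem result :
    (∀ (U V E : Type) [Fintype E] (s : E → U) (d : E → V) (q : ℕ) [Fact q.Prime],
      ∃ R : RandTree q E, ∀ c : E → ZMod q,
        ((∃ x y, sat s d c x y = Fintype.card E) → R.accept 1 c = 1) ∧
        ((¬ ∃ x y, sat s d c x y = Fintype.card E) → R.accept 1 c = 1 / (q : ℝ))) ∧
    (∀ (U V E : Type) [Fintype U] [Fintype V] [Fintype E] (s : E → U) (d : E → V)
      (r : ℕ) (δ ε : ℝ) (q : ℕ) [Fact q.Prime],
      (∀ e e', s e = s e' → d e = d e' → e = e') →
      ((2 * r : ℕ) : ℕ∞) < (constraintGraph s d).egirth →
      0 < δ → δ ≤ 1 / 4 → 0 < ε → ε ≤ 1 →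
      3 * ((Fintype.card U : ℝ) + Fintype.card V + 1) ≤ δ * Fintype.card E →
      1 / δ ^ 3 ≤ (q : ℝ) →
      ∀ (T : ℕ) (R : RandTree q E), Decides R T s d ε δ →
        Real.exp (ε * r / 18) ≤ 54 / ε * (Real.log q + 5) * (T : ℝ) ^ 2) ∧
    (∀ (δ ε : ℝ) (N : ℕ), 0 < δ → δ ≤ 1 / 4 → 0 < ε → ε ≤ 1 → 1 / δ ^ 7 ≤ (N : ℝ) →
      ∃ H : Finset (Fin N × Fin N), (H.card : ℝ) ≤ 15 * N / δ ∧
        ∀ (q : ℕ) [Fact q.Prime], 1 / δ ^ 3 ≤ (q : ℝ) → ∀ (T : ℕ) (R : RandTree q H),
          Decides R T (fun e : H => e.1.1) (fun e : H => e.1.2) ε δ →
          (N : ℝ) ^ (ε / (108 * Real.log (1 / δ))) ≤ 130 * (Real.log q / ε) * (T : ℝ) ^ 2) := by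
  classical
  refine ⟨?_, ?_, ?_⟩
  · intro U V E _ s d q _
    obtain ⟨Ω, fin, w, ask, acc, hw, hw1, h⟩ := Pool.Agent.T6.H63.LD.perfect s d q
    refine ⟨⟨Ω, fin, w, hw, hw1, fun o => ⟨ask o, acc o⟩⟩, ?_⟩
    intro c
    have hsat : (∃ x y, sat s d c x y = Fintype.card E) ↔
        ∃ (x : U → ZMod q) (y : V → ZMod q), ∀ e, y (d e) = x (s e) + c e := by
      refine exists_congr fun x => exists_congr fun y => ?_
      rw [sat, card_eq_iff_eq_univ, filter_eq_self]
      simp
    have hacc : (⟨Ω, fin, w, hw, hw1, fun o => ⟨ask o, acc o⟩⟩ : RandTree q E).accept 1 c =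
        ∑ o, w o * (if acc o (Pool.Agent.T6.H63.LD.run (ask o) c 1) then 1 else 0) := by
      unfold RandTree.accept
      simp only [answers_eq]
    rw [hsat, hacc]
    obtain ⟨h1, h2⟩ := h c
    refine ⟨fun h3 => ?_, fun h3 => ?_⟩
    · convert h1 h3
    · convert h2 h3
  · intro U V E _ _ _ s d r δ ε q _ hinj hg hδ hδ1 hε hε1 hm hq T R hR
    rw [graph_eq] at hg
    let _ := R.fin
    refine Pool.Agent.T6.H63.LD.lower hinj hg hδ hδ1 hε hε1 hm hq T R.prob R.nonneg R.sum_one
      (fun o => (R.tree o).ask) (fun o => (R.tree o).acc) ?_ ?_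
    · intro c hc
      have h1 := hR.1 c hc
      unfold RandTree.accept at h1
      simp only [answers_eq] at h1
      convert h1
    · intro c hc
      have h1 := hR.2 c hc
      unfold RandTree.accept at h1
      simp only [answers_eq] at h1
      convert h1
  · intro δ ε N hδ hδ1 hε hε1 hN
    obtain ⟨H, hH, hlow⟩ := Pool.Agent.T6.H63.LD.lower_graph hδ hδ1 hε hε1 N hN
    refine ⟨H, hH, ?_⟩
    intro q _ hq T R hR
    let _ := R.fin
    refine hlow q hq T R.Ω R.prob R.nonneg R.sum_one
      (fun o => (R.tree o).ask) (fun o => (R.tree o).acc) ?_ ?_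
    · intro c hc
      have h1 := hR.1 c (by
        obtain ⟨x, y, hxy⟩ := hc
        refine ⟨x, y, ?_⟩
        unfold sat
        convert hxy)
      unfold RandTree.accept at h1
      simp only [answers_eq] at h1
      convert h1
    · intro c hc
      have h1 := hR.2 c (by
        intro x y
        unfold sat
        convert hc x y)
      unfold RandTree.accept at h1
      simp only [answers_eq] at h1
      convert h1

end Pool.Agent.Results.MP_325f1f_lc.LinearQueries
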