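import Pool.Agent.T6.H63.LR.Comp

/-!
# Local reductions from gap 3-SAT to unique games must be large

The definitions used in the statement are `Represents`, `violated`, `SatOn`, `Reads` in
`Pool/Agent/TH700/UG/Defs.lean`, and `Clause`, `Satisfies`, `falsified` in
`Pool/Agent/W888/GX/Mix.lean`.

The known reductions from gap 3-SAT to Label Cover and its relatives are local: for every assignment
there is an honest labeling, each label of which depends on few of the variables (those of a few
clauses, in some encoding), and that the honest labeling of a satisfying assignment violates at most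
a fraction `ε` of the edges is seen locally, gadget by gadget. `Represents F D ε s t π` says this for
the formula `F` and the game with the edges `(s e, t e)` and permutations `π e`.

The theorem: for some formulas `F` in `n` variables with `O(n)` clauses, at most a fraction
`7 / 8 + η` of which can be satisfied, every unique game which represents `F` with locality `D` and
completeness `1 - ε`, and in which no labeling satisfies a fraction `δ` of the edges, has more than
`(c ε n / D) ^ (1 / (2 ^ 22 x log (1 / x)))` vertices on either side, `x = ε / log (1 / δ)`. So the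
exponent of the size of a local reduction which proves the hardness of value `1 - ε` against value
`δ` grows at least like `y / log y`, `y = log (1 / δ) / ε`, and in a reduction of polynomial size some
label must depend on `n ^ (1 - O(log y / y))` variables. This is unconditional.

Proof: for random formulas there is a pseudo-expectation of linear degree which satisfies all
clauses. Composed with the honest labelings it is a solution of level `c n / D` of the
Sherali-Adams hierarchy for the game, of value `1 - ε`. The rounding theorem for this hierarchy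
with small soundness gives a labeling of value `δ` if there are at least `1 / δ` vertices on a side;
if there are fewer, then all labels of this side are fixed at once.
-/

namespace Pool.Agent.Results.MP_325f1f_lc.LocalReductionSize

open Finset Pool.Agent.W888.GX Pool.Agent.TH700.UG

/-- For every `η > 0` there are `M` and `c > 0` such that for all large `n` there is a formula `F`
with at least `n` and at most `M n` clauses, with three literals each, over `n` variables, every
assignment of which falsifies at least a fraction `1 / 8 - η` of the clauses, and with the following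
property. Let `0 < ε ≤ 2 ^ (-17)`, `0 < δ ≤ 2 ^ (-26)`, `D ≥ 1`, `1 / δ ≤ c n / D` and
`x = ε / log (1 / δ)`. If a unique game with vertices `U`, `V`, edges `(s e, t e)`, permutations
`π e` of any finite alphabet `A` represents `F` with locality `D` and completeness `1 - ε`, and if
every labeling satisfies less than a fraction `δ` of the edges, then
`|U| > (c ε n / D) ^ (1 / (2 ^ 22 x log (1 / x)))`. -/
theorem result : ∀ η : ℝ, 0 < η →
    ∃ M : ℕ, 1 ≤ M ∧ ∃ c : ℝ, 0 < c ∧ ∃ n₀ : ℕ, ∀ n : ℕ, n₀ ≤ n →
      ∃ (I : Type) (_ : Fintype I) (F : I → Clause 3 n),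
        n ≤ Fintype.card I ∧ Fintype.card I ≤ M * n ∧
        (∀ z, (1 / 8 - η) * (Fintype.card I : ℝ) ≤ (falsified F z : ℝ)) ∧
        ∀ (D : ℕ) (ε δ x : ℝ) (U V E A : Type) [Fintype U] [Fintype V] [Fintype E] [Fintype A]
          [DecidableEq A] (s : E → U) (t : E → V) (π : E → Equiv.Perm A), 1 ≤ D →
          0 < ε → ε ≤ 1 / 2 ^ 17 → 0 < δ → δ ≤ 1 / 2 ^ 26 → 1 / δ ≤ c * n / D →
          x = ε / Real.log (1 / δ) →
          Represents F D ε (fun e => (Sum.inl (s e) : U ⊕ V)) (fun e => Sum.inr (t e)) π →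
          (∀ (X : U → A) (Y : V → A), ((univ.filter fun e => π e (X (s e)) = Y (t e)).card : ℝ) <
            δ * Fintype.card E) →
          (c * ε * n / D) ^ (1 / (2 ^ 22 * (x * Real.log (1 / x)))) < Fintype.card U := by
  intro η hη
  obtain ⟨M, hM, c0, hc0, n0, hn0⟩ := Pool.Agent.TH843.LR.exists_formula_card η hη
  refine ⟨M, hM, c0 / 2 ^ 25, by positivity, n0, fun n hn => ?_⟩
  obtain ⟨I, hI, F, D0, L, hcard0, hcard, hfar, hD0, hL, hF⟩ := hn0 n hn
  refine ⟨I, hI, F, hcard0, hcard, hfar, ?_⟩
  intro D ε δ x U V E A _ _ _ _ _ s t π hD hε hε1 hδ hδ1 hδn hx hR hno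
  obtain ⟨enc, P, hP, T, g, henc, hg, hv⟩ := hR
  by_contra hcon
  push Not at hcon
  have hDr : (0 : ℝ) < D := by exact_mod_cast hD
  have hl2 := Real.log_two_gt_d9
  have hδi : (2 : ℝ) ^ 26 ≤ 1 / δ := by
    rw [le_div_iff₀ hδ]
    have : δ * 2 ^ 26 ≤ 1 / 2 ^ 26 * 2 ^ 26 := mul_le_mul_of_nonneg_right hδ1 (by positivity)
    linarith
  have hLδ : 18 ≤ Real.log (1 / δ) := by
    have h1 : Real.log ((2 : ℝ) ^ 26) ≤ Real.log (1 / δ) :=
      Real.log_le_log (by positivity) hδi
    rw [Real.log_pow] at h1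
    push_cast at h1
    linarith
  have hx0 : 0 < x := by rw [hx]; positivity
  have hx1 : x ≤ 1 / 2 ^ 17 := by
    rw [hx, div_le_iff₀ (by linarith)]
    have : (0 : ℝ) < 1 / 2 ^ 17 := by positivity
    nlinarith
  have hlx : 1 ≤ Real.log (1 / x) := by
    have h1 : Real.log ((2 : ℝ) ^ 17) ≤ Real.log (1 / x) := by
      apply Real.log_le_log (by positivity)
      rw [le_div_iff₀ hx0]
      have : x * 2 ^ 17 ≤ 1 / 2 ^ 17 * 2 ^ 17 := mul_le_mul_of_nonneg_right hx1 (by positivity)
      linarith
    rw [Real.log_pow] at h1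
    push_cast at h1
    linarith
  obtain ⟨w, hw⟩ : ∃ w : ℝ, w = x * Real.log (1 / x) := ⟨_, rfl⟩
  rw [← hw, one_div (2 ^ 22 * w)] at hcon
  have hw0 : 0 < w := by rw [hw]; positivity
  have hy0 : (0 : ℝ) < c0 / 2 ^ 25 * n / D := by
    have : (0 : ℝ) < 1 / δ := by positivity
    linarith
  have hU : (Fintype.card U : ℝ) ^ (2 ^ 22 * w) ≤ c0 / 2 ^ 25 * ε * n / D := by
    have h0 : 0 ≤ c0 / 2 ^ 25 * ε * n / D := by positivity
    calc (Fintype.card U : ℝ) ^ (2 ^ 22 * w) ≤
        ((c0 / 2 ^ 25 * ε * n / D) ^ (2 ^ 22 * w)⁻¹) ^ (2 ^ 22 * w) :=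
          Real.rpow_le_rpow (Nat.cast_nonneg _) hcon (by positivity)
      _ = _ := Real.rpow_inv_rpow h0 (by positivity)
  -- the locality is small
  have hDD : D ≤ D0 := by
    have h1 : (D : ℝ) ≤ D0 := by
      refine le_trans ?_ hD0
      have h2 : (1 : ℝ) ≤ c0 / 2 ^ 25 * n / D := by linarith [show (1 : ℝ) ≤ 2 ^ 26 by norm_num]
      rw [le_div_iff₀ hDr, one_mul] at h2
      have h3 : (0 : ℝ) ≤ c0 * n := by positivity
      have h4 : c0 / 2 ^ 25 * n = c0 * n * (1 / 2 ^ 25) := by ring
      have h5 : c0 * n * (1 / 2 ^ 25) ≤ c0 * n * 1 :=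
        mul_le_mul_of_nonneg_left (by norm_num) h3
      linarith
    exact_mod_cast h1
  have hval := Pool.Agent.T6.H63.LR.val_comp hL F hF (fun e => (Sum.inl (s e) : U ⊕ V))
    (fun e => Sum.inr (t e)) π ε enc P T g hg hv hDD
  rcases lt_or_ge (Fintype.card U : ℝ) (1 / δ) with hsmall | hlarge
  · -- few vertices
    have h1 : (Fintype.card U + 1) * D ≤ D0 := by
      have h2 : (((Fintype.card U + 1) * D : ℕ) : ℝ) ≤ D0 := by
        push_cast
        refine le_trans ?_ hD0
        have h3 : (Fintype.card U : ℝ) + 1 ≤ 2 * (c0 / 2 ^ 25 * n / D) := by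
          linarith [show (1 : ℝ) ≤ 2 ^ 26 by norm_num]
        calc ((Fintype.card U : ℝ) + 1) * D ≤ 2 * (c0 / 2 ^ 25 * n / D) * D :=
              mul_le_mul_of_nonneg_right h3 hDr.le
          _ = c0 * n * (1 / 2 ^ 24) := by field_simp
          _ ≤ c0 * n * 1 := mul_le_mul_of_nonneg_left (by norm_num) (by positivity)
          _ = _ := mul_one _
      exact_mod_cast h2
    obtain ⟨X, Y, h⟩ := Pool.Agent.T6.H63.LR.few s t π (Fintype.card U + 1) _
      (Pool.Agent.T6.H63.LR.sa_comp hL enc henc h1) le_rfl _ hval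
    have h2 := hno X Y
    have h3 : δ * (Fintype.card E : ℝ) ≤ (1 - ε) * Fintype.card E := by
      refine mul_le_mul_of_nonneg_right ?_ (Nat.cast_nonneg _)
      norm_num at hδ1 hε1
      linarith
    linarith
  · -- many vertices
    have hU0 : (0 : ℝ) < Fintype.card U := lt_of_lt_of_le (by positivity) hlarge
    have hU1 : (1 : ℝ) ≤ Fintype.card U := by
      linarith [show (1 : ℝ) ≤ 2 ^ 26 by norm_num]
    obtain ⟨N, hN⟩ : ∃ N : ℝ, N = Fintype.card U := ⟨_, rfl⟩
    rw [← hN] at hU hU0 hU1 hlarge
    obtain ⟨k, hk⟩ : ∃ k : ℕ, k = ⌊c0 * n / D⌋₊ := ⟨_, rfl⟩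
    have hkD : k * D ≤ D0 := by
      have h2 : ((k * D : ℕ) : ℝ) ≤ D0 := by
        push_cast
        refine le_trans ?_ hD0
        have h3 : (k : ℝ) ≤ c0 * n / D := by
          rw [hk]; exact Nat.floor_le (by positivity)
        rwa [le_div_iff₀ hDr] at h3
      exact_mod_cast h2
    have hk1 : c0 / 2 * n / D ≤ k := by
      have h1 : c0 * n / D < k + 1 := by rw [hk]; exact Nat.lt_floor_add_one _
      have h2 : (1 : ℝ) ≤ c0 / 2 ^ 25 * n / D := by linarith [show (1 : ℝ) ≤ 2 ^ 26 by norm_num]
      have h3 : c0 / 2 * n / D = 2 ^ 24 * (c0 / 2 ^ 25 * n / D) := by ring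
      have h4 : c0 * n / D = 2 ^ 25 * (c0 / 2 ^ 25 * n / D) := by ring
      rw [h4] at h1
      rw [h3]
      linarith
    -- the level is sufficient
    have hw1 : w ≤ 1 := by
      rw [hw]
      have h1 : Real.log (1 / x) ≤ 1 / x := by
        have := Real.log_le_sub_one_of_pos (show 0 < 1 / x by positivity)
        linarith
      calc x * Real.log (1 / x) ≤ x * (1 / x) := mul_le_mul_of_nonneg_left h1 hx0.le
        _ = 1 := by field_simp
    have hxw : x ≤ w := by rw [hw]; exact le_mul_of_one_le_right hx0.le hlx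
    have hlw : Real.log (1 / w) ≤ Real.log (1 / x) :=
      Real.log_le_log (by positivity) (one_div_le_one_div_of_le hx0 hxw)
    have hlw0 : 0 ≤ Real.log (1 / w) := Real.log_nonneg (by rw [le_div_iff₀ hw0]; linarith)
    have hlogN : Real.log N ≤ N ^ w / w := Real.log_le_rpow_div hU0.le hw0
    have hlevel : 2 ^ 23 * ((N ^ w + Real.log (1 / w) * Real.log N / Real.log (1 / δ)) *
        N ^ (2 ^ 21 * (ε * (Real.log (1 / w) / Real.log (1 / δ))))) ≤ k := by
      have hLδ0 : 0 < Real.log (1 / δ) := by linarith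
      have h1 : Real.log (1 / w) * Real.log N / Real.log (1 / δ) ≤ N ^ w / ε := by
        rw [div_le_iff₀ hLδ0]
        have h2 : Real.log (1 / w) * Real.log N ≤ Real.log (1 / x) * (N ^ w / w) :=
          mul_le_mul hlw hlogN (Real.log_nonneg hU1) (by linarith)
        refine h2.trans (le_of_eq ?_)
        obtain ⟨Z, hZ⟩ : ∃ Z : ℝ, Z = N ^ w := ⟨_, rfl⟩
        obtain ⟨ℓ, hℓ⟩ : ∃ ℓ : ℝ, ℓ = Real.log (1 / x) := ⟨_, rfl⟩
        obtain ⟨Λ, hΛ⟩ : ∃ Λ : ℝ, Λ = Real.log (1 / δ) := ⟨_, rfl⟩
        rw [← hZ, ← hΛ, ← hℓ, hw, ← hℓ]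
        have h3 : 0 < ℓ := by rw [hℓ]; linarith
        have h4 : 0 < Λ := by rw [hΛ]; linarith
        have h5 : x = ε / Λ := by rw [hΛ]; exact hx
        rw [h5]
        field_simp
      have h2 : ε * (Real.log (1 / w) / Real.log (1 / δ)) ≤ w := by
        have h3 : ε * (Real.log (1 / w) / Real.log (1 / δ)) = x * Real.log (1 / w) := by
          rw [hx]; ring
        rw [h3]
        exact (mul_le_mul_of_nonneg_left hlw hx0.le).trans (le_of_eq hw.symm)
      have hNw : 0 < N ^ w := Real.rpow_pos_of_pos hU0 _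
      have h4 : N ^ (2 ^ 21 * (ε * (Real.log (1 / w) / Real.log (1 / δ)))) ≤ N ^ (2 ^ 21 * w) :=
        Real.rpow_le_rpow_of_exponent_le hU1 (by linarith)
      have h5 : N ^ w + Real.log (1 / w) * Real.log N / Real.log (1 / δ) ≤ 2 * (N ^ w / ε) := by
        have h6 : N ^ w ≤ N ^ w / ε := by
          rw [le_div_iff₀ hε]
          have : ε ≤ 1 := hε1.trans (by norm_num)
          nlinarith
        linarith
      have h7 : N ^ w * N ^ (2 ^ 21 * w) ≤ N ^ (2 ^ 22 * w) := by
        rw [← Real.rpow_add hU0]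
        exact Real.rpow_le_rpow_of_exponent_le hU1 (by linarith)
      calc 2 ^ 23 * ((N ^ w + Real.log (1 / w) * Real.log N / Real.log (1 / δ)) *
          N ^ (2 ^ 21 * (ε * (Real.log (1 / w) / Real.log (1 / δ))))) ≤
          2 ^ 23 * (2 * (N ^ w / ε) * N ^ (2 ^ 21 * w)) := by
            refine mul_le_mul_of_nonneg_left ?_ (by positivity)
            exact mul_le_mul h5 h4 (Real.rpow_pos_of_pos hU0 _).le (by positivity)
        _ = 2 ^ 24 / ε * (N ^ w * N ^ (2 ^ 21 * w)) := by ring
        _ ≤ 2 ^ 24 / ε * N ^ (2 ^ 22 * w) := mul_le_mul_of_nonneg_left h7 (by positivity)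
        _ ≤ 2 ^ 24 / ε * (c0 / 2 ^ 25 * ε * n / D) :=
            mul_le_mul_of_nonneg_left hU (by positivity)
        _ = c0 / 2 * n / D := by field_simp
        _ ≤ k := hk1
    rw [hN] at hlevel hlarge
    have hδU : 1 / (Fintype.card U : ℝ) ≤ δ := by
      rw [hN] at hU0
      rw [div_le_iff₀ hU0]
      rw [div_le_iff₀ hδ] at hlarge
      linarith
    obtain ⟨X, Y, h⟩ := Pool.Agent.T6.H63.SS.core s t π w δ ε k _ hw0 hw1 hδU hδ1 hε hε1 hlevel
      (Pool.Agent.T6.H63.LR.sa_comp hL enc henc hkD) hval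
    have := hno X Y
    linarith

end Pool.Agent.Results.MP_325f1f_lc.LocalReductionSize
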