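import Pool.Agent.T6.H63.SA.Main

/-!
Unique games and the Sherali-Adams hierarchy of linear programs at level `n ^ r`, without any
semidefinite constraint: loss `O(√(ε log (2/r) / r))`, for every alphabet.

Proof (`Pool/Agent/T6/H63/SA`).  The rounding by conditioning needs a global correlation of a kernel
`K(u, v)` (a normalised covariance of the labels of `u` and `v`) with small energy along the edges.
For semidefinite relaxations `K` is positive semidefinite and the correlation of the two ends of a
random walk is log-convex in the number of steps.  A Sherali-Adams solution only gives a kernel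
which is positive semidefinite on all small sets of vertices.  Sampling `t` independent ends of the
walk, given that it has left its starting point, shows that the correlation after `2 i` steps is at
least the square of the correlation after `i` steps, up to an error; the errors of all doublings add
up to `O(1 / t)` times the conductance, because the walk leaves `u` in `i` steps only with
probability `O(i)` times its rate.  So a reserve of `t = poly(1/γ, 1/r) n ^ r` levels replaces the
semidefinite constraints.
-/

namespace Pool.Agent.Results.MP_325f1f_lc.PureSheraliAdams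

open Finset

/-- `f` depends only on the labels of the vertices in `S`. -/
def DependsOn {V A : Type} (S : Finset V) (f : (V → A) → ℝ) : Prop :=
  ∀ x y : V → A, (∀ v ∈ S, x v = y v) → f x = f y

/-- `L` is a solution of level `k` of the Sherali-Adams hierarchy of linear programs: a normalised
linear functional on the functions of a labeling which is nonnegative on all nonnegative functions
of at most `k` labels. Only the values of `L` on functions of at most `k` labels matter; they are
given by consistent probability distributions on the labelings of the sets of at most `k`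
vertices. -/
structure IsSheraliAdams {V A : Type} [Fintype V] (k : ℕ) (L : ((V → A) → ℝ) →ₗ[ℝ] ℝ) :
    Prop where
  one : L (fun _ => 1) = 1
  nonneg : ∀ S : Finset V, S.card ≤ k → ∀ f : (V → A) → ℝ, DependsOn S f → (∀ x, 0 ≤ f x) →
    0 ≤ L f

/-- For every unique game (any finite alphabet, any constraint graph on `n` vertices) and all
`0 < r ≤ 1`, `0 < γ < 1` and `ε` with `2 ^ 32 * ε * log (2 / r) ≤ r * γ ^ 2`: if level
`k ≥ 2 ^ 43 * log (2 / r) * n ^ r / (r * γ ^ 2)` of the Sherali-Adams hierarchy has a solution of
value at least `1 - ε`, then some labeling satisfies at least a fraction `1 - γ` of the edges. -/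
theorem result (V A E : Type) [Fintype V] [Fintype A] [DecidableEq A] [Fintype E]
    (s t : E → V) (π : E → Equiv.Perm A) (r γ ε : ℝ) (k : ℕ) (L : ((V → A) → ℝ) →ₗ[ℝ] ℝ)
    (hr : 0 < r) (hr1 : r ≤ 1) (hγ : 0 < γ) (hγ1 : γ < 1)
    (hεγ : 2 ^ 32 * (ε * Real.log (2 / r)) ≤ r * γ ^ 2)
    (hk : 2 ^ 43 * (Real.log (2 / r) * (Fintype.card V : ℝ) ^ r) ≤ r * γ ^ 2 * k)
    (hL : IsSheraliAdams k L)
    (hval : (1 - ε) * (Fintype.card E : ℝ)
      ≤ ∑ e, L (fun x => if π e (x (s e)) = x (t e) then 1 else 0)) :
    ∃ x : V → A, (1 - γ) * (Fintype.card E : ℝ)
      ≤ ((univ.filter fun e => π e (x (s e)) = x (t e)).card : ℝ) := by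
  classical
  exact Pool.Agent.T6.H63.SA.core s t π r γ ε hr hr1 hγ hγ1
    (by norm_num at hεγ ⊢; exact hεγ) k (by norm_num at hk ⊢; exact hk) L
    ⟨hL.one, hL.nonneg⟩ hval

end Pool.Agent.Results.MP_325f1f_lc.PureSheraliAdams
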