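import Pool.Agent.T6.H63.SS.Main

/-!
Unique games with value `1 - ε` against value `δ`: the Sherali-Adams hierarchy of linear programs,
without any semidefinite constraint, at level `n ^ (O(ε log (log (1/δ) / ε) / log (1/δ)))`, for
every alphabet.

Proof (`Pool/Agent/T6/H63/SS`).  Edges of small error are kept.  On the sources of the edges
consider the two-step kernel (two edges with a common target).  A soft part is chosen as a
maximiser of the retained mass against an `L^p` norm, `p = 2 / (1 + κ)`, where `n ^ (-2κ)` is about
`δ`; by the Euler-Lagrange equation the chain on the part satisfies an `L^p` to `L^2` inequality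
with constant one, so its return probabilities decay doubly exponentially: after `log (1/q) / κ`
steps they sum up to at most `n ^ q`.  The normalised covariance of the labels is positive
semidefinite only on small sets of vertices; by sampling independent ends of the walk its
correlation along the walk is nevertheless almost squared at every doubling of the number of
steps.  So the correlation of two random vertices of the part is not small and conditioning makes
progress, until the most likely labels are consistent on a set of vertices whose mass is at least a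
fraction `δ` of its boundary.  The sets are put together greedily and each target takes its most
popular label.
-/

namespace Pool.Agent.Results.MP_325f1f_lc.SherAdamsSmallSoundness

open Finset

/-- `f` depends only on the labels of the vertices in `S`. -/
def DependsOn {V A : Type} (S : Finset V) (f : (V → A) → ℝ) : Prop :=
  ∀ x y : V → A, (∀ v ∈ S, x v = y v) → f x = f y

/-- `L` is a solution of level `k` of the Sherali-Adams hierarchy of linear programs: a normalised
linear functional on the functions of a labeling which is nonnegative on all nonnegative functions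
of at most `k` labels. Only the values of `L` on functions of at most `k` labels matter; they are
given by consistent probability distributions on the labelings of the sets of at most `k`
vertices. -/
structure IsSheraliAdams {V A : Type} [Fintype V] (k : ℕ) (L : ((V → A) → ℝ) →ₗ[ℝ] ℝ) :
    Prop where
  one : L (fun _ => 1) = 1
  nonneg : ∀ S : Finset V, S.card ≤ k → ∀ f : (V → A) → ℝ, DependsOn S f → (∀ x, 0 ≤ f x) →
    0 ≤ L f

/-- Unique games with vertices `U` and `V`, edges `(s e, t e)`, permutations `π e` of any finite
alphabet `A`; let `n = |U|`. Let `0 < q ≤ 1`, `1 / n ≤ δ ≤ 2 ^ (-26)` and `0 < ε ≤ 2 ^ (-17)`. If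
level `k ≥ 2 ^ 23 * (n ^ q + log (1/q) log n / log (1/δ)) * n ^ (2 ^ 21 * ε log (1/q) / log (1/δ))`
of the Sherali-Adams hierarchy has a solution of value at least `1 - ε`, then some labeling
satisfies at least a fraction `δ` of the edges. -/
theorem result (U V A E : Type) [Fintype U] [Fintype V] [Fintype A] [DecidableEq A] [Fintype E]
    (s : E → U) (t : E → V) (π : E → Equiv.Perm A) (q δ ε : ℝ) (k : ℕ)
    (L : ((U ⊕ V → A) → ℝ) →ₗ[ℝ] ℝ)
    (hq : 0 < q) (hq1 : q ≤ 1) (hδ : 1 / (Fintype.card U : ℝ) ≤ δ) (hδ1 : δ ≤ 1 / 2 ^ 26)
    (hε : 0 < ε) (hε1 : ε ≤ 1 / 2 ^ 17)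
    (hk : 2 ^ 23 * (((Fintype.card U : ℝ) ^ q +
      Real.log (1 / q) * Real.log (Fintype.card U) / Real.log (1 / δ)) *
      (Fintype.card U : ℝ) ^ (2 ^ 21 * (ε * (Real.log (1 / q) / Real.log (1 / δ))))) ≤ k)
    (hL : IsSheraliAdams k L)
    (hval : (1 - ε) * (Fintype.card E : ℝ) ≤
      ∑ e, L (fun z => if π e (z (Sum.inl (s e))) = z (Sum.inr (t e)) then 1 else 0)) :
    ∃ (x : U → A) (y : V → A), δ * (Fintype.card E : ℝ) ≤
      ((univ.filter fun e => π e (x (s e)) = y (t e)).card : ℝ) :=
  Pool.Agent.T6.H63.SS.core s t π q δ ε k L hq hq1 hδ hδ1 hε hε1 hk ⟨hL.one, hL.nonneg⟩ hval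

end Pool.Agent.Results.MP_325f1f_lc.SherAdamsSmallSoundness
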